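import Pool.Agent.H81.D3.Targets

/-!
# Composition of lattice caps (row CMP of `d3n_modules`)
-/

set_option autoImplicit false

namespace Pool.Agent.H68.D3

open MeasureTheory Set Pool.Agent.H83.G Pool.Agent.H81.D3
open scoped ENNReal NNReal RealInnerProductSpace

private theorem ctr_comp (w K : ℕ) (κ k : Fin 2 → ℤ) (hw : 1 ≤ w) (hK : 1 ≤ K) :
    ctr ((w * K : ℕ) : ℝ)⁻¹ ((K : ℤ) • κ + k) =
      ctr (w : ℝ)⁻¹ κ + (w : ℝ)⁻¹ • ctr (K : ℝ)⁻¹ k := by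
  have hw0 : (w : ℝ) ≠ 0 := by
    have : (0 : ℝ) < w := by exact_mod_cast hw
    exact this.ne'
  have hK0 : (K : ℝ) ≠ 0 := by
    have : (0 : ℝ) < K := by exact_mod_cast hK
    exact this.ne'
  ext i
  simp only [ctr, PiLp.add_apply, PiLp.smul_apply, smul_eq_mul, Pi.add_apply, Pi.smul_apply]
  push_cast
  field_simp

private theorem Ks_abs (w : ℕ) (hw : 1 ≤ w) (κ : Fin 2 → ℤ) (hκ : κ ∈ Ks 2 (w : ℝ)⁻¹)
    (i : Fin 2) : -(9 * (w : ℤ)) ≤ κ i ∧ κ i ≤ 9 * (w : ℤ) := by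
  have hw0 : (w : ℝ) ≠ 0 := by
    have : (0 : ℝ) < w := by exact_mod_cast hw
    exact this.ne'
  have h1 : ⌈3 * (((2 : ℕ) : ℝ) + 1) / (w : ℝ)⁻¹⌉ = 9 * (w : ℤ) := by
    have h2 : 3 * (((2 : ℕ) : ℝ) + 1) / (w : ℝ)⁻¹ = ((9 * (w : ℤ) : ℤ) : ℝ) := by
      push_cast
      field_simp
      norm_num
    rw [h2, Int.ceil_intCast]
  unfold Ks at hκ
  rw [Fintype.mem_piFinset] at hκ
  have h3 := hκ i
  rw [h1, Finset.mem_Icc] at h3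
  exact h3

private theorem ctr_le (w : ℕ) (hw : 1 ≤ w) (κ : Fin 2 → ℤ) (hκ : κ ∈ Ks 2 (w : ℝ)⁻¹) :
    ‖ctr (w : ℝ)⁻¹ κ‖ ≤ 5 := by
  have hw0 : (0 : ℝ) < w := by exact_mod_cast hw
  have h1 : ∀ i, (κ i : ℝ) ^ 2 ≤ 81 * (w : ℝ) ^ 2 := by
    intro i
    obtain ⟨h2, h3⟩ := Ks_abs w hw κ hκ i
    have h4 : -(9 * (w : ℝ)) ≤ (κ i : ℝ) := by exact_mod_cast h2
    have h5 : (κ i : ℝ) ≤ 9 * (w : ℝ) := by exact_mod_cast h3
    nlinarith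
  unfold ctr
  rw [norm_smul]
  have h2 : ‖(WithLp.toLp 2 (fun i => (κ i : ℝ)) : E 2)‖ ≤ 15 * w := by
    rw [EuclideanSpace.norm_eq, Fin.sum_univ_two]
    apply Real.sqrt_le_iff.mpr
    refine ⟨by positivity, ?_⟩
    have h3 := h1 0
    have h4 := h1 1
    simp only [Real.norm_eq_abs, sq_abs]
    nlinarith [sq_nonneg (w : ℝ)]
  have h3 : ‖(w : ℝ)⁻¹ / (((2 : ℕ) : ℝ) + 1)‖ = (w : ℝ)⁻¹ / 3 := by
    rw [Real.norm_eq_abs, abs_of_pos (by positivity)]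
    norm_num
  rw [h3]
  calc (w : ℝ)⁻¹ / 3 * ‖(WithLp.toLp 2 (fun i => (κ i : ℝ)) : E 2)‖
      ≤ (w : ℝ)⁻¹ / 3 * (15 * w) := by gcongr
    _ = 5 := by
        field_simp
        norm_num

private theorem Lo_surj (η : E 2) (s : ℝ) (hs : s ≠ 0) (z : Z 2) : ∃ y, Lo η s y = z := by
  refine ⟨(z.1 - ⟪s⁻¹ • z.2.1 - (2 * (s⁻¹ ^ 2 * z.2.2)) • η, η⟫ -
      (s⁻¹ ^ 2 * z.2.2) * ‖η‖ ^ 2, s⁻¹ • z.2.1 - (2 * (s⁻¹ ^ 2 * z.2.2)) • η,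
      s⁻¹ ^ 2 * z.2.2), ?_⟩
  unfold Lo
  refine Prod.ext ?_ (Prod.ext ?_ ?_)
  · show z.1 - ⟪s⁻¹ • z.2.1 - (2 * (s⁻¹ ^ 2 * z.2.2)) • η, η⟫ -
      (s⁻¹ ^ 2 * z.2.2) * ‖η‖ ^ 2 + ⟪s⁻¹ • z.2.1 - (2 * (s⁻¹ ^ 2 * z.2.2)) • η, η⟫ +
      s⁻¹ ^ 2 * z.2.2 * ‖η‖ ^ 2 = z.1
    ring
  · show s • (s⁻¹ • z.2.1 - (2 * (s⁻¹ ^ 2 * z.2.2)) • η + (2 * (s⁻¹ ^ 2 * z.2.2)) • η) = z.2.1
    rw [sub_add_cancel, smul_smul, mul_inv_cancel₀ hs, one_smul]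
  · show s ^ 2 * (s⁻¹ ^ 2 * z.2.2) = z.2.2
    field_simp

theorem pf_CMP (hLOA : T_LOA) (hLOB : T_LOB) (hPUS : T_PUS) : T_CMP := by
  refine ⟨361, by norm_num, ?_, ?_, ?_, ?_⟩
  · intro w K κ k z hw hK
    have h1 := ctr_comp w K κ k hw hK
    refine ⟨?_, h1⟩
    unfold Lc
    rw [((hLOA 2).2.2.2.1 _ _ _ _ z).1, h1]
    congr 1
    push_cast
    rw [mul_inv]
  · intro w κ z z' hw hκ
    have hw0 : (0 : ℝ) < w := by exact_mod_cast hw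
    have hw1 : (1 : ℝ) ≤ w := by exact_mod_cast hw
    have hs0 : 0 < (w : ℝ)⁻¹ := by positivity
    have hs1 : (w : ℝ)⁻¹ ≤ 1 := inv_le_one_of_one_le₀ hw1
    have hc := ctr_le w hw κ hκ
    have h0 := norm_nonneg z
    refine ⟨((hLOA 2).1 _ _ z z').2.1, ?_, ?_, Lo_surj _ _ hs0.ne' z, hc⟩
    · have h1 := ((hLOB 2 5 (by norm_num)).1 _ _ z hc hs0.le hs1).1
      unfold Lc
      refine h1.trans ?_
      nlinarith
    · have h1 := (hLOB 2 5 (by norm_num)).2.1 _ _ z hc hs0 hs1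
      unfold Lc
      refine h1.trans ?_
      rw [inv_inv]
      have h2 := norm_nonneg (Lo (ctr (w : ℝ)⁻¹ κ) (w : ℝ)⁻¹ z)
      have h3 : 0 ≤ (w : ℝ) ^ 2 * ‖Lo (ctr (w : ℝ)⁻¹ κ) (w : ℝ)⁻¹ z‖ := by positivity
      nlinarith
  · intro L β R A G w κ x hβ hR hA hw hG hne
    have hw0 : (0 : ℝ) < w := by exact_mod_cast hw
    have hw1 : (1 : ℝ) ≤ w := by exact_mod_cast hw
    have hs0 : 0 < (w : ℝ)⁻¹ := by positivity
    have hex : ∃ ζ, Gc β w G κ ζ ≠ 0 := by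
      by_contra hcon
      push Not at hcon
      apply hne
      unfold TF
      simp only [hcon, mul_zero, integral_zero]
    obtain ⟨ζ, hζ⟩ := hex
    unfold Gc RS at hζ
    have h1 := (mul_ne_zero_iff.mp hζ).2
    obtain ⟨h2, h3⟩ := mul_ne_zero_iff.mp h1
    obtain ⟨ξ, hξ⟩ : ∃ ξ, ξ = Ld (ctr (w : ℝ)⁻¹ κ) (w : ℝ)⁻¹ ζ := ⟨_, rfl⟩
    rw [← hξ] at h2 h3
    have h4 : ‖ξ.1⁻¹ • ξ.2.1 - ctr (w : ℝ)⁻¹ κ‖ ≤ (w : ℝ)⁻¹ := by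
      by_contra hcon
      rw [not_le] at hcon
      apply h2
      unfold cp
      apply hβ.2.1
      rw [norm_smul, norm_inv, norm_inv, inv_inv, Real.norm_eq_abs, abs_of_pos hw0]
      calc (1 : ℝ) = w * (w : ℝ)⁻¹ := by field_simp
        _ ≤ w * ‖ξ.1⁻¹ • ξ.2.1 - ctr (w : ℝ)⁻¹ κ‖ := by gcongr
    obtain ⟨h5, _, h6, _⟩ := hG.2.1 ξ h3
    have hξ0 : 0 < ξ.1 := by linarith
    have h7 : ‖ξ.1⁻¹ • ξ.2.1‖ ≤ 5 / 4 := by
      rw [norm_smul, norm_inv, Real.norm_eq_abs, abs_of_pos hξ0, inv_mul_le_iff₀ hξ0]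
      linarith
    have h8 : ‖ctr (w : ℝ)⁻¹ κ‖ ≤ 5 / 4 + 1 / w := by
      have h9 : ‖ctr (w : ℝ)⁻¹ κ‖ ≤ ‖ξ.1⁻¹ • ξ.2.1‖ + ‖ξ.1⁻¹ • ξ.2.1 - ctr (w : ℝ)⁻¹ κ‖ := by
        have := norm_sub_le (ξ.1⁻¹ • ξ.2.1) (ξ.1⁻¹ • ξ.2.1 - ctr (w : ℝ)⁻¹ κ)
        rwa [sub_sub_cancel] at this
      rw [one_div]
      linarith
    refine ⟨?_, h8⟩
    by_contra hcon
    have h9 := (hPUS 2).2.1 (w : ℝ)⁻¹ κ hs0 hcon
    have h10 : 1 / (w : ℝ) ≤ 1 := by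
      rw [div_le_one hw0]
      exact hw1
    linarith
  · intro w K κ' J _ hK hJ
    have hK0 : (0 : ℤ) < K := by exact_mod_cast hK
    have hsub : J ⊆ Fintype.piFinset fun i => Finset.Icc (κ' i / K - 9) (κ' i / K + 9) := by
      intro κ hκ
      obtain ⟨k, hk, he⟩ := hJ κ hκ
      rw [Fintype.mem_piFinset]
      intro i
      obtain ⟨h1, h2⟩ := Ks_abs K hK k hk i
      have h3 : κ' i = K * κ i + k i := by
        rw [he]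
        simp
      have h4 := Int.mul_ediv_add_emod (κ' i) K
      have h5 := Int.emod_nonneg (κ' i) hK0.ne'
      have h6 := Int.emod_lt_of_pos (κ' i) hK0
      rw [Finset.mem_Icc]
      obtain ⟨q, hq⟩ : ∃ q, q = κ' i / K := ⟨_, rfl⟩
      obtain ⟨r, hr⟩ : ∃ r, r = κ' i % K := ⟨_, rfl⟩
      rw [← hq] at h4 ⊢
      rw [← hr] at h4 h5 h6
      have h7 : (K : ℤ) * (κ i - q) = r - k i := by linarith
      constructor
      · by_contra hcon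
        rw [not_le] at hcon
        have h8 : κ i - q ≤ -10 := by omega
        nlinarith
      · by_contra hcon
        rw [not_le] at hcon
        have h8 : 10 ≤ κ i - q := by omega
        nlinarith
    have h1 := Finset.card_le_card hsub
    rw [Fintype.card_piFinset, Fin.prod_univ_two, Int.card_Icc, Int.card_Icc] at h1
    have h2 : ∀ a : ℤ, (a + 9 + 1 - (a - 9)).toNat = 19 := by
      intro a
      omega
    rw [h2, h2] at h1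
    exact_mod_cast h1

end Pool.Agent.H68.D3
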