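import Pool.Agent.H87.D3.Targets

/-! Two pinched points in a pinched cell (row PTS of the board d3h). -/

set_option autoImplicit false

namespace Pool.Agent.H68.D3

open MeasureTheory Metric Set Filter Topology Pool.Agent.H87.SN Pool.Agent.H87.SH Pool.Agent.H87.AX
open Pool.Agent.H87.D3
open scoped ContDiff RealInnerProductSpace ENNReal

theorem pf_PTS (hMUF : T_MUF) : T_PTS := by
  intro m Λ e om hΛ he hom G hG k K x s hs hball heΛ hth hW
  obtain ⟨hfin, _, _, _, _, hcont⟩ := hMUF m G hG.memG
  have : IsFiniteMeasure (mu G) := ⟨lt_top_iff_ne_top.mpr hfin⟩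
  -- the measure of the cell
  have hcell : e * s / 4 ≤ (mu G).real (ball x s) := by
    unfold th at hth
    rw [le_div_iff₀ hs] at hth
    linarith
  -- the points which are not pinched
  obtain ⟨A, hA⟩ : ∃ A : Set V, A = {p | p ∈ ball x s ∧ om < dr G k K p s} := ⟨_, rfl⟩
  have hdr : Measurable fun p => dr G k K p s := by
    unfold dr th
    exact (((hcont _).div_const _).sub ((hcont _).div_const _)).measurable
  have hmA : ENNReal.ofReal om * mu G A ≤
      ∫⁻ p in ball x s, ENNReal.ofReal (dr G k K p s) ∂(mu G) := by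
    have h1 := mul_meas_ge_le_lintegral₀ (μ := (mu G).restrict (ball x s))
      hdr.ennreal_ofReal.aemeasurable (ENNReal.ofReal om)
    refine le_trans (mul_le_mul' le_rfl ?_) h1
    rw [Measure.restrict_apply' measurableSet_ball]
    apply measure_mono
    rw [hA]
    intro p hp
    exact ⟨ENNReal.ofReal_le_ofReal hp.2.le, hp.1⟩
  have hI : ∫⁻ p in ball x s, ENNReal.ofReal (dr G k K p s) ∂(mu G) <
      ENNReal.ofReal (s * (om * e / 16)) := by
    have h1 : ∫⁻ p in ball x s, ENNReal.ofReal (dr G k K p s) ∂(mu G) =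
        ENNReal.ofReal s * Wc G k K x s := by
      unfold Wc
      rw [← mul_assoc, ← ENNReal.ofReal_mul hs.le, mul_inv_cancel₀ hs.ne', ENNReal.ofReal_one,
        one_mul]
    rw [h1, ENNReal.ofReal_mul hs.le]
    exact ENNReal.mul_lt_mul_right (ENNReal.ofReal_pos.mpr hs).ne' ENNReal.ofReal_ne_top hW
  have hAr : (mu G).real A < e * s / 16 := by
    have h1 := hmA.trans_lt hI
    have h2 : mu G A = ENNReal.ofReal ((mu G).real A) := (ofReal_measureReal).symm
    rw [h2, ← ENNReal.ofReal_mul hom.le,
      ENNReal.ofReal_lt_ofReal_iff (by positivity)] at h1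
    have h3 : om * (mu G).real A < om * (e * s / 16) := by
      calc om * (mu G).real A < s * (om * e / 16) := h1
        _ = _ := by ring
    exact lt_of_mul_lt_mul_left h3 hom.le
  -- the first point
  have hp : ∃ p ∈ ball x s, dr G k K p s ≤ om := by
    by_contra hcon
    push Not at hcon
    have h1 : ball x s ⊆ A := by
      intro p hp
      rw [hA]
      exact ⟨hp, hcon p hp⟩
    have h2 : (mu G).real (ball x s) ≤ (mu G).real A := measureReal_mono h1
    have h3 : 0 < e * s := by positivity
    linarith
  obtain ⟨p, hp, hpd⟩ := hp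
  -- a small ball around it
  obtain ⟨r, hr⟩ : ∃ r, r = e / (16 * Λ) * s := ⟨_, rfl⟩
  have hr0 : 0 < r := by rw [hr]; positivity
  have hrs : r ≤ s := by
    have h1 : e / (16 * Λ) ≤ 1 := by
      rw [div_le_one (by positivity)]
      linarith
    rw [hr]
    nlinarith
  have hpow : (1 : ℝ) ≤ 2 ^ k := one_le_pow₀ (by norm_num)
  have hB : (mu G).real (ball p r) ≤ e * s / 16 := by
    have h1 : ball p r ⊆ ball 0 2 := by
      refine Subset.trans ?_ hball
      apply ball_subset_ball'
      rw [mem_ball] at hp
      nlinarith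
    calc (mu G).real (ball p r) ≤ Λ * r := hG.den p r hr0 h1
      _ = e * s / 16 := by
          rw [hr]
          field_simp
  -- the second point
  have hp' : ∃ p' ∈ ball x s, dr G k K p' s ≤ om ∧ p' ∉ ball p r := by
    by_contra hcon
    push Not at hcon
    have h1 : ball x s ⊆ A ∪ ball p r := by
      intro q hq
      by_cases h2 : dr G k K q s ≤ om
      · exact Or.inr (hcon q hq h2)
      · rw [hA]
        exact Or.inl ⟨hq, not_le.mp h2⟩
    have h2 : (mu G).real (ball x s) ≤ (mu G).real A + (mu G).real (ball p r) :=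
      (measureReal_mono h1).trans (measureReal_union_le _ _)
    have h3 : 0 < e * s := by positivity
    linarith
  obtain ⟨p', hp', hpd', hnot⟩ := hp'
  refine ⟨p, hp, p', hp', hpd, hpd', ?_⟩
  rw [← hr, dist_comm]
  rw [mem_ball, not_lt] at hnot
  exact hnot

end Pool.Agent.H68.D3
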