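import Pool.Agent.H81.D3.Targets

/-!
# Theorem G in the form of the chain (row TEC of `d3n_modules`)
-/

set_option autoImplicit false

namespace Pool.Agent.H68.D3

open MeasureTheory Set Pool.Agent.H83.G Pool.Agent.H81.D3

theorem pf_TEC : T_TEC := by
  intro h L ε hL hε
  obtain ⟨C, hC, h⟩ := h L ε hL hε
  refine ⟨max C 1, le_max_right _ _, ?_⟩
  intro R A H G X hR hA hH hG hS hX
  refine (h R A H G X hR hA hH hG hS hX).trans ?_
  have hR0 : 0 < R := by linarith
  have h1 : 0 ≤ En43 A R G := by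
    unfold En43
    have : 0 ≤ ∫ ζ, ‖G ζ‖ ^ 2 := integral_nonneg fun ζ => by positivity
    positivity
  have h2 : C * R ^ ε * A ^ (4 / 3 : ℝ) * R ^ (1 / 3 : ℝ) * ∫ ζ, ‖G ζ‖ ^ 2 =
      C * R ^ ε * En43 A R G := by
    unfold En43
    ring
  rw [h2]
  have h3 : 0 ≤ R ^ ε := by positivity
  exact mul_le_mul_of_nonneg_right (mul_le_mul_of_nonneg_right (le_max_left _ _) h3) h1

end Pool.Agent.H68.D3
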